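import Pool.Agent.N314.OP.NearMain

/-!
# Banach-Mazur rotation problem: Opial's (non-strict) condition

Let `E` be a separable infinite-dimensional real Banach space whose isometry group has dense
orbits on the unit sphere, and assume that for all `p < 2 < q` it is isomorphic to a `p`-uniformly
smooth and to a `q`-uniformly convex space (for instance, `E` is isomorphic to a Hilbert space).
If `E` satisfies Opial's non-strict condition in one direction, then `E` is isometric to a Hilbert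
space.
-/

set_option autoImplicit false

namespace Pool.Agent.Results.MP_cc72b1_an.OpialCriterion

open Filter Topology

/-- `E` is linearly isometric to a Hilbert space -/
def IsHilbert (E : Type) [NormedAddCommGroup E] [NormedSpace ℝ E] : Prop :=
  ∃ (H : Type) (_ : NormedAddCommGroup H) (_ : InnerProductSpace ℝ H) (_ : CompleteSpace H),
    Nonempty (E ≃ₗᵢ[ℝ] H)

/-- `E` is linearly isomorphic to a Hilbert space -/
def Hilbertian (E : Type) [NormedAddCommGroup E] [NormedSpace ℝ E] : Prop :=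
  ∃ (H : Type) (_ : NormedAddCommGroup H) (_ : InnerProductSpace ℝ H) (_ : CompleteSpace H),
    Nonempty (E ≃L[ℝ] H)

/-- for all `1 < p < 2 < q` the space `E` is linearly isomorphic to a space which is uniformly
smooth of power type `p`, and to a space which is uniformly convex of power type `q` -/
def NearHilbert (E : Type) [NormedAddCommGroup E] [NormedSpace ℝ E] : Prop :=
  ∀ p q : ℝ, 1 < p → p < 2 → 2 < q →
    (∃ (F : Type) (_ : NormedAddCommGroup F) (_ : NormedSpace ℝ F) (K : ℝ),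
      Nonempty (E ≃L[ℝ] F) ∧ ∀ x w : F, ‖x‖ = 1 → ‖x + w‖ + ‖x - w‖ ≤ 2 + K * ‖w‖ ^ p) ∧
    ∃ (F : Type) (_ : NormedAddCommGroup F) (_ : NormedSpace ℝ F) (c : ℝ), 0 < c ∧
      Nonempty (E ≃L[ℝ] F) ∧
      ∀ x w : F, c * ‖w‖ ^ q ≤ ‖x + w‖ ^ q + ‖x - w‖ ^ q - 2 * ‖x‖ ^ q

lemma nearHilbert_of {E : Type} [NormedAddCommGroup E] [NormedSpace ℝ E]
    (h : Hilbertian E) : NearHilbert E := by
  obtain ⟨H, _, _, _, ⟨Φ⟩⟩ := h
  refine fun p q hp1 hp2 hq => ⟨⟨H, inferInstance, inferInstance, 2,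
    ⟨Φ⟩, fun x w hx => ?_⟩, ⟨H, inferInstance, inferInstance, 2, two_pos, ⟨Φ⟩, fun x w => ?_⟩⟩
  · have h := N314.OP.hilbert_USp (H := H) (η := 2 - p) (by linarith) (by linarith) x w hx
    rwa [sub_sub_cancel] at h
  · have h := N314.OP.hilbert_UCq (H := H) (η := q - 2) (by linarith) x w
    rwa [add_sub_cancel] at h

theorem result :
    ∀ (E : Type) [NormedAddCommGroup E] [NormedSpace ℝ E] [CompleteSpace E]
      [TopologicalSpace.SeparableSpace E],
      ¬ FiniteDimensional ℝ E →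
      (∀ x y : E, ‖x‖ = 1 → ‖y‖ = 1 → ∀ ε : ℝ, 0 < ε → ∃ T : E ≃ₗᵢ[ℝ] E, ‖T x - y‖ < ε) →
      (Hilbertian E → NearHilbert E) ∧
      (IsHilbert E ↔ NearHilbert E ∧ ∃ e : E, ‖e‖ = 1 ∧
        ∀ y : ℕ → E, (∀ n, ‖y n‖ = 1) →
          (∀ f : StrongDual ℝ E, Tendsto (fun n => f (y n)) atTop (𝓝 0)) →
          ∀ t : ℝ, 0 ≤ t → 1 ≤ liminf (fun n => ‖t • e + y n‖) atTop) := by
  intro E _ _ _ _ hinf hA
  have hnt : Nontrivial E := by
    by_contra h
    rw [not_nontrivial_iff_subsingleton] at h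
    exact hinf inferInstance
  obtain ⟨e₀, he₀⟩ : ∃ e : E, ‖e‖ = 1 := exists_norm_eq E zero_le_one
  refine ⟨nearHilbert_of, ?_⟩
  constructor
  · rintro ⟨H, _, _, _, ⟨Φ⟩⟩
    refine ⟨nearHilbert_of ⟨H, inferInstance, inferInstance, inferInstance,
      ⟨Φ.toContinuousLinearEquiv⟩⟩, e₀, he₀, fun y hy1 hy2 t _ => ?_⟩
    rw [(N314.OP.hilbert_lim Φ hy1 hy2 (t • e₀)).liminf_eq]
    rw [Real.le_sqrt' one_pos]
    have : 0 ≤ ‖t • e₀‖ ^ 2 := by positivity
    linarith
  · rintro ⟨hN, e, he, h⟩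
    have hO := N314.OP.opialL_of_dir hA he fun y h1 h2 t ht => h y h1 h2 t ht
    have h1 : ∀ η : ℝ, 0 < η → η < 1 → ∃ K : ℝ, 0 < K ∧ N314.OP.Mod.USp E (2 - η) K := by
      intro η h0 h1
      obtain ⟨⟨F, _, _, K, ⟨Φ⟩, hK⟩, -⟩ := hN (2 - η) 3 (by linarith) (by linarith) (by norm_num)
      exact N314.OP.Mod.smooth_AT hA Φ (by linarith) hK
    have h2 : ∀ η : ℝ, 0 < η → η < 1 → ∃ c : ℝ, 0 < c ∧ N314.OP.Mod.UCq E (2 + η) c := by
      intro η h0 h1
      obtain ⟨-, F, _, _, c, hc, ⟨Φ⟩, hK⟩ := hN (3 / 2) (2 + η) (by norm_num) (by norm_num)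
        (by linarith)
      exact N314.OP.Mod.convex_AT hA Φ (by linarith) hc hK
    exact ⟨E, inferInstance,
      InnerProductSpace.ofNorm ℝ (N314.OP.main_near hA hinf h1 h2 hO), inferInstance,
      ⟨LinearIsometryEquiv.refl ℝ E⟩⟩

end Pool.Agent.Results.MP_cc72b1_an.OpialCriterion
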