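import Pool.Agent.N315.BM.SSing

/-!
# Banach-Mazur rotation problem: two isometries with a strictly singular difference

Let `E` be an infinite-dimensional real Banach space (separable or not) whose isometry group has
dense orbits on the unit sphere, for instance a transitive one. If there are two surjective linear
isometries `S ≠ T` such that `S - T` is strictly singular, for instance compact, then `E` is a Hilbert
space. For `S - T` of finite rank this is a theorem of Cabello Sánchez.

Proof outline (files `Pool/Agent/N315/BM/*`).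

1. `SSing`: we may take `T = 1`, and then `S - 1` is compact (functional calculus of an isometry).
   `Ultra`: passing to an ultrapower `X` we may assume that the isometry group is transitive; the
   ultrapower of `S` is again a compact perturbation of `1`. `X` is not separable.
2. Let `K` be the group of all isometries `T` of `X` with `T - 1` compact. Assume first that `K` is
   not discrete for the operator norm. `Main`, `SkewH`: for `V ∈ K`, `V → 1`, the operators
   `(V - 1) / ‖V - 1‖` give, in an ultrapower, a skew-hermitian operator `B ≠ 0` with a non-zero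
   kernel. It does not commute with all conjugates of `S`, by the structure of the almost periodic
   operators (starting files `TH596/RO`). `Coef`, `FinRank`: a suitable absolutely convergent sum
   `∑ h_l S^l B S^{-l}` is skew-hermitian, not zero and of finite rank; so there is an isometry `≠ 1`
   which is a finite rank perturbation of `1`.
3. `InvForm`, `Pairs`, `MinProj`, `Irr`, `Form` (and the general form `GPairs`, `GMinProj`, `GIrr`,
   `GForm`). The span of the isometries which are finite rank perturbations of `1` is an algebra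
   whose finite sets preserve arbitrarily large finite-dimensional subspaces and inner products on
   them. So it has an involution `∑ c_i T_i ↦ ∑ c_i T_i⁻¹`, a minimal self-adjoint projection `e`, and
   by transitivity it acts irreducibly: every vector is `c x` with `x` in the range of `e`. The form
   `q (c x) e = e c* c e` is bounded by the uniform boundedness principle and is multiplied by a
   constant by each isometry of `X`; hence it is a multiple of `‖x‖ ^ 2`.
4. Assume that `K` is discrete. `Weak`: the conjugation `T ↦ U T U⁻¹` on `K` is continuous from the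
   weak operator topology to the norm: `W = U T U⁻¹ T⁻¹` satisfies `(W - 1) ^ 3 → 0`, and an isometry
   with this property tends to `1` in norm. `Rec`: the powers of `T ∈ K` recur to `1` in the weak
   operator topology (otherwise long sums of differences give powers of `T` of large norm). So for
   `S, T ∈ K` some power `T ^ n`, `n ≥ 1`, commutes with `S`. `LF`: hence every vector of `X` lies in
   a finite-dimensional subspace invariant under given finitely many elements of `K`. `Disc`: now
   item 3 applies to the norm closures of the spans of the finitely generated subgroups of `K`,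
   which contain operators `≠ 0` of finite rank (spectral projections).
-/

set_option autoImplicit false

namespace Pool.Agent.Results.MP_cc72b1_an.StrictlySingularDifference

open scoped InnerProductSpace

/-- in an infinite-dimensional Hilbert space the reflection in a hyperplane is a strictly singular
perturbation of the identity -/
lemma hilbert_ss {H : Type} [NormedAddCommGroup H] [InnerProductSpace ℝ H]
    (hH : ¬ FiniteDimensional ℝ H) : ∃ S T : H ≃ₗᵢ[ℝ] H, S ≠ T ∧
      ∀ Y : Submodule ℝ H, ¬ FiniteDimensional ℝ Y → ∀ ε : ℝ, 0 < ε →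
        ∃ y ∈ Y, ‖y‖ = 1 ∧ ‖S y - T y‖ < ε := by
  obtain ⟨x, hx⟩ : ∃ x : H, x ≠ 0 := by
    by_contra h
    push Not at h
    apply hH
    haveI : Subsingleton H := ⟨fun a b => by rw [h a, h b]⟩
    infer_instance
  refine ⟨((ℝ ∙ x)ᗮ : Submodule ℝ H).reflection, LinearIsometryEquiv.refl ℝ H, ?_, ?_⟩
  · intro h
    have h1 : ((ℝ ∙ x)ᗮ : Submodule ℝ H).reflection x = x := by
      rw [h]; rfl
    rw [Submodule.reflection_orthogonalComplement_singleton_eq_neg] at h1
    have h2 : (2 : ℝ) • x = 0 := by
      rw [two_smul]
      nth_rewrite 1 [← h1]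
      exact neg_add_cancel x
    exact hx ((smul_eq_zero.1 h2).resolve_left two_ne_zero)
  · intro Y hY ε hε
    obtain ⟨y, hy, hy0, hxy⟩ : ∃ y ∈ Y, y ≠ 0 ∧ ⟪x, y⟫_ℝ = 0 := by
      by_contra hcon
      push Not at hcon
      apply hY
      let f : Y →ₗ[ℝ] ℝ := (innerₛₗ ℝ x).comp Y.subtype
      have hf : Function.Injective f := by
        rw [← LinearMap.ker_eq_bot, LinearMap.ker_eq_bot']
        intro m hm
        by_contra hm0
        exact hcon m m.2 (fun h => hm0 (Subtype.ext h)) hm
      exact FiniteDimensional.of_injective f hf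
    have hn : 0 < ‖y‖ := norm_pos_iff.2 hy0
    refine ⟨‖y‖⁻¹ • y, Y.smul_mem _ hy, ?_, ?_⟩
    · rw [norm_smul, norm_inv, norm_norm, inv_mul_cancel₀ hn.ne']
    · have h1 : ((ℝ ∙ x)ᗮ : Submodule ℝ H).reflection (‖y‖⁻¹ • y) = ‖y‖⁻¹ • y := by
        rw [Submodule.reflection_eq_self_iff, Submodule.mem_orthogonal_singleton_iff_inner_right,
          inner_smul_right, hxy, mul_zero]
      rw [h1]
      show ‖‖y‖⁻¹ • y - ‖y‖⁻¹ • y‖ < ε
      rw [sub_self, norm_zero]
      exact hε

theorem result :
    ∀ (E : Type) [NormedAddCommGroup E] [NormedSpace ℝ E] [CompleteSpace E],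
      ¬ FiniteDimensional ℝ E →
      -- the isometry group has dense orbits on the unit sphere
      (∀ x y : E, ‖x‖ = 1 → ‖y‖ = 1 → ∀ ε : ℝ, 0 < ε → ∃ T : E ≃ₗᵢ[ℝ] E, ‖T x - y‖ < ε) →
      -- two different isometries whose difference is strictly singular
      ((∃ S T : E ≃ₗᵢ[ℝ] E, S ≠ T ∧
        ∀ Y : Submodule ℝ E, ¬ FiniteDimensional ℝ Y → ∀ ε : ℝ, 0 < ε →
          ∃ y ∈ Y, ‖y‖ = 1 ∧ ‖S y - T y‖ < ε) ↔
      ∃ (H : Type) (_ : NormedAddCommGroup H) (_ : InnerProductSpace ℝ H) (_ : CompleteSpace H),
        Nonempty (E ≃ₗᵢ[ℝ] H)) := by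
  intro E _ _ _ hE hor
  constructor
  · rintro ⟨S, T, hne, hss⟩
    have key := Pool.Agent.N315.BM.ss_main hE hor hne hss
    exact ⟨E, inferInstance, InnerProductSpace.ofNorm ℝ key, inferInstance,
      ⟨LinearIsometryEquiv.refl ℝ E⟩⟩
  · rintro ⟨H, i1, i2, i3, ⟨Φ⟩⟩
    have hH : ¬ FiniteDimensional ℝ H := fun h =>
      hE (FiniteDimensional.of_injective (Φ.toLinearEquiv : E →ₗ[ℝ] H) Φ.injective)
    obtain ⟨S, T, hne, hss⟩ := hilbert_ss hH
    refine ⟨(Φ.trans S).trans Φ.symm, (Φ.trans T).trans Φ.symm, ?_, ?_⟩
    · intro h
      apply hne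
      ext z
      have h1 : ((Φ.trans S).trans Φ.symm) (Φ.symm z) = ((Φ.trans T).trans Φ.symm) (Φ.symm z) := by
        rw [h]
      have h2 : Φ.symm (S (Φ (Φ.symm z))) = Φ.symm (T (Φ (Φ.symm z))) := h1
      rw [Φ.apply_symm_apply] at h2
      exact Φ.symm.injective h2
    · intro Y hY ε hε
      have hY' : ¬ FiniteDimensional ℝ (Y.map (Φ.toLinearEquiv : E →ₗ[ℝ] H)) := fun h =>
        hY (LinearEquiv.finiteDimensional
          (Φ.toLinearEquiv.submoduleMap Y).symm)
      obtain ⟨_, ⟨y, hy, rfl⟩, hy1, hy2⟩ := hss _ hY' ε hε
      have hy1' : ‖Φ y‖ = 1 := hy1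
      have hy2' : ‖S (Φ y) - T (Φ y)‖ < ε := hy2
      refine ⟨y, hy, by rwa [Φ.norm_map] at hy1', ?_⟩
      show ‖Φ.symm (S (Φ y)) - Φ.symm (T (Φ y))‖ < ε
      rwa [← map_sub, Φ.symm.norm_map]

end Pool.Agent.Results.MP_cc72b1_an.StrictlySingularDifference
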