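import Pool.Agent.N314.OP.NearMain

/-!
# Banach-Mazur rotation problem: two-sided asymptotic estimates in one direction

Let `E` be a separable infinite-dimensional reflexive real Banach space whose isometry group has
dense orbits on the unit sphere. If for one unit vector `e` and one exponent `p ≥ 1` the limits of
`‖t e + y n‖ - 1` along weakly null sequences of unit vectors are, up to constants, between
`t ^ (p + η)` and `t ^ (p - η)` for every `η > 0`, then `E` is isometric to a Hilbert space.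
-/

set_option autoImplicit false

namespace Pool.Agent.Results.MP_cc72b1_an.TwoSidedEstimates

open Filter Topology

/-- `E` is linearly isometric to a Hilbert space -/
def IsHilbert (E : Type) [NormedAddCommGroup E] [NormedSpace ℝ E] : Prop :=
  ∃ (H : Type) (_ : NormedAddCommGroup H) (_ : InnerProductSpace ℝ H) (_ : CompleteSpace H),
    Nonempty (E ≃ₗᵢ[ℝ] H)

theorem result :
    ∀ (E : Type) [NormedAddCommGroup E] [NormedSpace ℝ E] [CompleteSpace E]
      [TopologicalSpace.SeparableSpace E],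
      ¬ FiniteDimensional ℝ E →
      (∀ x y : E, ‖x‖ = 1 → ‖y‖ = 1 → ∀ ε : ℝ, 0 < ε → ∃ T : E ≃ₗᵢ[ℝ] E, ‖T x - y‖ < ε) →
      (IsHilbert E ↔ Function.Surjective (NormedSpace.inclusionInDoubleDual ℝ E) ∧
        ∃ (e : E) (p : ℝ), ‖e‖ = 1 ∧ 1 ≤ p ∧ ∀ η : ℝ, 0 < η → ∃ c C : ℝ, 0 < c ∧
          ∀ y : ℕ → E, (∀ n, ‖y n‖ = 1) →
            (∀ f : StrongDual ℝ E, Tendsto (fun n => f (y n)) atTop (𝓝 0)) →
            ∀ t ∈ Set.Ioc (0 : ℝ) 1,
            1 + c * t ^ (p + η) ≤ liminf (fun n => ‖t • e + y n‖) atTop ∧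
            limsup (fun n => ‖t • e + y n‖) atTop ≤ 1 + C * t ^ (p - η)) := by
  intro E _ _ _ _ hinf hA
  have hS : N314.OP.Sep E := N314.OP.sep_of_separable
  have hnt : Nontrivial E := by
    by_contra h
    rw [not_nontrivial_iff_subsingleton] at h
    exact hinf inferInstance
  obtain ⟨e₀, he₀⟩ : ∃ e : E, ‖e‖ = 1 := exists_norm_eq E zero_le_one
  constructor
  · rintro ⟨H, _, _, _, ⟨Φ⟩⟩
    refine ⟨N314.OP.reflexive_of_hilbertian Φ.toContinuousLinearEquiv, e₀, 2, he₀,
      by norm_num, fun η hη => ⟨1 / 3, 1, by norm_num, fun y hy1 hy2 t ht => ?_⟩⟩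
    have h1 := N314.OP.hilbert_lim Φ hy1 hy2 (t • e₀)
    have h2 : ‖t • e₀‖ = t := by rw [norm_smul, he₀, mul_one, Real.norm_of_nonneg ht.1.le]
    rw [h1.liminf_eq, h1.limsup_eq, h2]
    have h3 : t ^ 2 ≤ 1 := by nlinarith [ht.1, ht.2]
    have h4 : 0 ≤ t ^ 2 := by positivity
    have h5 : t ^ (2 + η) ≤ t ^ 2 := by
      rw [← Real.rpow_two]
      exact Real.rpow_le_rpow_of_exponent_ge ht.1 ht.2 (by linarith)
    have h6 : t ^ 2 ≤ t ^ (2 - η) := by
      rw [← Real.rpow_two]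
      exact Real.rpow_le_rpow_of_exponent_ge ht.1 ht.2 (by linarith)
    have h7 : 1 + 1 / 3 * t ^ 2 ≤ Real.sqrt (1 + t ^ 2) := by
      apply Real.le_sqrt_of_sq_le
      nlinarith
    have h8 : Real.sqrt (1 + t ^ 2) ≤ 1 + 1 * t ^ 2 := by
      rw [Real.sqrt_le_left (by linarith)]
      nlinarith
    constructor <;> linarith
  · rintro ⟨hr, e, p, he, hp, h⟩
    have hW := N314.OP.wsc_of_uw (N314.OP.uw_of_reflexive hr) hS
    have key := N314.OP.main_TSL hA hW hS hinf hp (N314.OP.TSLe_of_dir hA he h)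
    exact ⟨E, inferInstance, InnerProductSpace.ofNorm ℝ key, inferInstance,
      ⟨LinearIsometryEquiv.refl ℝ E⟩⟩

end Pool.Agent.Results.MP_cc72b1_an.TwoSidedEstimates
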